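import Pool.Agent.H.MP_a58584.D

set_option autoImplicit false
open Set Topology TopologicalSpace

namespace Pool.Agent.Results.MP_9c9ca5_gt.Metr
open Pool.Agent.H.MP_a58584

theorem result (X : Type) [TopologicalSpace X] [T35Space X]
    (extral : ∀ (Y : Type) [TopologicalSpace Y] [T35Space Y] (e : X → Y), IsClosedEmbedding e →
      ∃ φ : {f : X → ℝ // Continuous f} → {g : Y → ℝ // Continuous g},
        Continuous φ ∧ ∀ (f : {f : X → ℝ // Continuous f}) (x : X), (φ f).1 (e x) = f.1 x)
    (tight : ∀ (A : Set X) (x : X), x ∈ closure A → ∃ B ⊆ A, B.Countable ∧ x ∈ closure B) :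
    MetrizableSpace X := by
  classical
  by_contra hm
  obtain ⟨J, hA⟩ : ∃ J : Type, Cardinal.mk J = Cardinal.aleph 1 := ⟨_, Cardinal.mk_out _⟩
  obtain ⟨h, hh⟩ := TExtral.emb extral hm _ hA
  obtain ⟨B, h1, h2, h3⟩ := tight (range fun F : Finset J => h fun α => decide (α ∈ F))
    (h fun _ => true) (mem_closure_of_tendsto (b := Filter.atTop)
      ((hh.continuous.tendsto _).comp (tendsto_pi_nhds.2 fun α => tendsto_const_nhds.congr' (by
        filter_upwards [Filter.eventually_ge_atTop ({α} : Finset J)] with F hF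
        exact (decide_eq_true (hF (Finset.mem_singleton_self α))).symm)))
      (.of_forall fun F => ⟨F, rfl⟩))
  have h1' : ∀ b ∈ B, ∃ F : Finset J, (h fun α => decide (α ∈ F)) = b := fun b hb => h1 hb
  choose! F hF using h1'
  have : Countable J := countable_univ_iff.1 ((h2.biUnion fun b _ => (F b).countable_toSet).mono
    fun α _ => by
      by_contra hc
      obtain ⟨z, hz, e⟩ := closure_minimal (t := h '' {z | z α = false}) (fun b hb =>
        ⟨_, decide_eq_false fun e => hc (mem_iUnion₂.2 ⟨b, hb, e⟩), hF b hb⟩)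
        (hh.isClosedMap _ (isClosed_eq (continuous_apply α) continuous_const)) h3
      rw [hh.injective e] at hz
      simp at hz)
  have := Cardinal.mk_le_aleph0_iff.2 this
  rw [hA] at this
  exact this.not_gt Cardinal.aleph0_lt_aleph_one

end Pool.Agent.Results.MP_9c9ca5_gt.Metr
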